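import Pool.Agent.Lib.MP_c8a077_gtP.Main

/-!
# Surface-area polynomial integrability with degree at most `n - 2`

For every even `n ≥ 4` and every convex body `K ⊆ ℝⁿ` (no smoothness, no symmetry): if all the functions
`S_{K,u}` are polynomials of degree at most `n - 2` (the degree of the ellipsoids) then `K` is an ellipsoid.

More generally the degree may be any `N`.  Write `S_{K,u}(t) = ∑_{j ≤ N} s_j(u) (t - ⟨z,u⟩)^j` with an interior
point `z` of `K`.  If `K` is not an ellipsoid then for some `j ≥ n - 1` the sign of the coefficient `s_j` on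
the sphere is not the sign of a homogeneous polynomial of degree `j - n + 2`.  For example `K` is an ellipsoid
* if `N ≤ n - 2` (there is no condition);
* if `K = -K`, `z = 0` and every coefficient `s_j` with `j ≥ n` is `≥ 0` on the whole sphere or `≤ 0` on the whole
  sphere (take for the polynomial a power of `|u|²`; the coefficients of odd order vanish); this is so if all
  zeros of the polynomials `S_{K,u}` are real;
* if every coefficient `s_j` with `j ≥ n - 1` is on the sphere equal to a homogeneous polynomial of degree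
  `j - n + 2`.
-/

open MeasureTheory Set Metric Topology Filter

namespace Pool.Agent.Results.MP_c8a077_gt.MinimalDegree

open Pool.Agent.MP_c8a077_gt Pool.Agent.MP_c8a077_gtP

/-- Let `n ≥ 4` be even, `K ⊆ ℝⁿ` a convex body, `z` an interior point of `K`, and suppose that for all unit
vectors `u` the function `S_{K,u}(t)` (the surface area of the section of `K` by the hyperplane `⟨x,u⟩ = t`) is
`∑_{j ≤ N} s_j(u) (t - ⟨z,u⟩)^j` for all `t` such that the hyperplane meets `K`.  If for every `j` with
`n - 1 ≤ j ≤ N` there is a nonzero homogeneous polynomial `g` of degree `j - n + 2` with `s_j g ≥ 0` on the unit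
sphere, then `K` is an ellipsoid. -/
theorem result : ∀ n : ℕ, Even n → 4 ≤ n → ∀ K : Set (EuclideanSpace ℝ (Fin n)),
    Convex ℝ K → IsCompact K → ∀ z ∈ interior K,
    ∀ (N : ℕ) (s : ℕ → EuclideanSpace ℝ (Fin n) → ℝ),
      (∀ u : EuclideanSpace ℝ (Fin n), ‖u‖ = 1 → ∀ t : ℝ, (K ∩ hyper u t).Nonempty →
        surfSec K u t =
          ENNReal.ofReal (∑ j ∈ Finset.range (N + 1), s j u * (t - inner ℝ z u) ^ j)) →
      (∀ j ≤ N, n - 1 ≤ j → ∃ g : MvPolynomial (Fin n) ℝ, g ≠ 0 ∧ g.IsHomogeneous (j + 2 - n) ∧
        ∀ u : EuclideanSpace ℝ (Fin n), ‖u‖ = 1 →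
          0 ≤ s j u * MvPolynomial.eval (fun i => u i) g) →
      IsEllipsoid K := by
  intro n hn h4 K hconv hcomp z hz N s hs hsign
  obtain ⟨m', hm'⟩ := hn
  obtain ⟨m, rfl⟩ : ∃ m, n = 2 * m + 1 + 1 := ⟨m' - 1, by omega⟩
  have hm : 1 ≤ m := by omega
  have hK : IsBody K := ⟨hconv, hcomp, ⟨z, hz⟩⟩
  obtain ⟨r, hr, hrK⟩ := ball_translate hz
  refine ellipsoid_translate z ?_
  set P : Sph (2 * m + 1 + 1) → Polynomial ℝ := fun u =>
    ∑ j ∈ Finset.range (N + 1), Polynomial.monomial j (s j (u : E (2 * m + 1 + 1))) with hP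
  have hcoeff : ∀ u j, (P u).coeff j = if j ≤ N then s j (u : E (2 * m + 1 + 1)) else 0 := by
    intro u j
    simp only [hP, Polynomial.finsetSum_coeff, Polynomial.coeff_monomial]
    by_cases h : j ≤ N
    · rw [if_pos h, Finset.sum_ite_eq' (Finset.range (N + 1)) j
        (fun i => s i (u : E (2 * m + 1 + 1))), if_pos (Finset.mem_range.2 (by omega))]
    · rw [if_neg h]
      refine Finset.sum_eq_zero fun i hi => if_neg ?_
      have := Finset.mem_range.1 hi
      omega
  have hnorm : ∀ u : Sph (2 * m + 1 + 1), ‖(u : E (2 * m + 1 + 1))‖ = 1 := fun u => by simp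
  refine main_gen (N := N) hm (body_translate hK z) hr hrK (P := P) ?_ ?_
  · intro u
    constructor
    · have h1 : ∀ t : ℝ, (K ∩ hyper (u : E (2 * m + 1 + 1)) t).Nonempty →
          surfSec K (u : E (2 * m + 1 + 1)) t = ENNReal.ofReal
            (((P u).comp (Polynomial.X - Polynomial.C (inner ℝ z (u : E (2 * m + 1 + 1))))).eval t) := by
        intro t ht
        rw [hs u (hnorm u) t ht]
        congr 1
        simp [hP, Polynomial.eval_finsetSum]
      refine rep_translate z u h1 fun t => ?_
      simp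
    · refine Polynomial.natDegree_le_iff_coeff_eq_zero.2 fun j hj => ?_
      rw [hcoeff, if_neg (by omega)]
  · intro j hjN hj
    obtain ⟨g, hg0, hgh, hg⟩ := hsign j hjN (by omega)
    have hdeg : j + 2 - (2 * m + 1 + 1) = j - 2 * m := by omega
    rw [hdeg] at hgh
    refine ⟨g, hg0, hgh, fun u => ?_⟩
    rw [hcoeff, if_pos hjN]
    exact hg u (hnorm u)

end Pool.Agent.Results.MP_c8a077_gt.MinimalDegree
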