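import Pool.Agent.Lib.MP_c8a077_gt.Main

/-!
# Surface-area polynomially integrable bodies of revolution are ellipsoids

For every even `n ≥ 4`: a convex body in `ℝⁿ` with a `C²` boundary which is a body of revolution
and which is surface-area polynomially integrable is an ellipsoid.
-/

open MeasureTheory Set Metric Topology Filter

namespace Pool.Agent.Results.MP_c8a077_gt.RevolutionBodies

open Pool.Agent.MP_c8a077_gt

theorem result : ∀ n : ℕ, Even n → 4 ≤ n → ∀ K : Set (EuclideanSpace ℝ (Fin n)),
    Convex ℝ K → IsCompact K → (interior K).Nonempty → C2Boundary K → IsRevolution K →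
    SurfPolyInt K → IsEllipsoid K := by
  intro n hn h4 K hconv hcomp hint hC2 hrev hpoly
  obtain ⟨m, hm⟩ := hn
  obtain ⟨k, rfl⟩ : ∃ k, m = k + 2 := ⟨m - 2, by omega⟩
  exact main (k := k) (by omega) K hconv hcomp hint hC2 hrev hpoly

end Pool.Agent.Results.MP_c8a077_gt.RevolutionBodies
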